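import Pool.Agent.Helper53.UR.Goals

/-!
# PROJECT UR (MP_c578c8_lc): packet FX

From a state of the main loop to acceptance. An adaptation of `Pool/Agent/Helper4/CTG/FX.lean`.
-/

namespace Pool.Agent.Helper88.UR

open Pool.Agent.Helper53.UR
open Pool.Agent.Helper1.TE (Gad app cif NumMach codeB NStep)
open Pool.Agent.Helper65.LinSpace (dig nrec ifz eq01 le01 lt01 Ctx LS num)
open Pool.Agent.Helper53.CTG (De De.k De.m De.e De.f De.v De.i De.T sub root Nt Hb Et Eb Fb Gb Pb
  bigT bigX bigS bigA gadC ev op runs toF dec runs_add runs_one runs_congr)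

/-- A run with a new first step. -/
theorem runs_head {S : Type} (step : ℕ → ℕ → S → Option S) {γ : ℕ → ℕ} {n a : ℕ} {s s' : S}
    (h0 : step 0 a s = some s') (h : (runs (fun t => step (1 + t)) γ n s').isSome) :
    (runs step (fun t => if t = 0 then a else γ (t - 1)) (n + 1) s).isSome := by
  rw [Nat.add_comm, runs_add, runs_one]
  simp only [if_true]
  rw [h0, Option.bind_some]
  rw [runs_congr (γ' := γ) (step' := fun t => step (1 + t))]
  · exact h
  · intro t _
    have h1 : 1 + t ≠ 0 := by omega
    have h2 : 1 + t - 1 = t := by omega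
    simp only [h1, if_false, h2]

variable {β : Type} [Ctx β]

/-- From the rejecting state only the rejecting state is reachable. -/
theorem nx_rej (M : UM β) (w : List Bool) (γ : ℕ) : M.mach.nx w rejS γ = rejS := by
  unfold NumMach.nx
  generalize codeB w[M.mach.addr rejS]? = y
  simp [UM.mach, UM.nextM, UM.nextN, cif, rejS, Sta.mo, eq01]

theorem reach_rej (M : UM β) (w : List Bool) (y : Sta β)
    (h : Relation.ReflTransGen (NStep M.mach w) rejS y) : y = rejS := by
  induction h with
  | refl => rfl
  | tail _ h2 ih =>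
    obtain ⟨γ, _, rfl⟩ := h2
    rw [ih]
    exact nx_rej M w γ

theorem acc_ne_rej : (accS : Sta β) ≠ rejS := by
  intro h
  have h2 := congrArg Sta.mo h
  simp [accS, rejS, Sta.mo] at h2

theorem acc_ne_main (o : β) (ρ u τ g : ℕ) (D : De) (X S A : ℕ) :
    accS ≠ mainS o ρ u τ g D X S A := by
  intro h
  have h2 := congrArg Sta.mo h
  simp [accS, mainS, Sta.mo] at h2

/-- The next state in the main loop. -/
theorem nx_main (M : UM β) (w : List Bool) (o : β) (ρ u τ g : ℕ) (D : De) (X S A γ : ℕ) :
    M.mach.nx w (mainS o ρ u τ g D X S A) γ = rejS ∨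
    M.mach.nx w (mainS o ρ u τ g D X S A) γ =
      if Nt (M.N o) (M.q o) - u = 0 then
        (if Nt (M.N o) (M.q o) + 3 * M.b o - u = 0 then
          (if bigT (M.tst o ρ) (M.b o) (M.c o) (M.W o) D g (M.wV o D A g) X A = 0 then rejS
            else if (τ + 1) / 13 ^ Nt (M.N o) (M.q o) = 0 then
              mainS o ρ 0 (τ + 1) 0 (root (M.N o) (M.q o))
                (bigX (M.N o) (M.q o) (M.b o) (M.c o) (M.W o) D g (M.wV o D A g) X S A)
                (bigS (M.N o) (M.q o) (M.b o) (M.c o) (M.W o) D (M.wV o D A g) X S A)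
                (bigA (M.c o) (M.W o) D (M.wV o D A g) A)
            else ctS (M.d o ρ))
          else mainS o ρ (u + 1) τ (2 * g + γ) D X S A)
      else mainS o ρ (u + 1) τ g
        (sub (M.q o) D (Nt (M.N o) (M.q o) - 1 - u) (dig 13 τ (Nt (M.N o) (M.q o) - 1 - u)))
        X S A := by
  unfold NumMach.nx
  generalize codeB w[M.mach.addr (mainS o ρ u τ g D X S A)]? = y
  change M.nextM (mainS o ρ u τ g D X S A) y γ = rejS ∨
    M.nextM (mainS o ρ u τ g D X S A) y γ = _
  unfold UM.nextM
  by_cases hq : γ * (1 - M.gq (mainS o ρ u τ g D X S A)) = 0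
  · right
    rw [hq]
    rfl
  · left
    simp only [cif, if_neg hq]
    rfl

/-- Inversion of the invariant in mode 2. -/
theorem inv_main {M : UM β} {w : List Bool} {o : β} {ρ u τ g : ℕ} {D : De} {X S A : ℕ}
    (hI : M.Inv w (mainS o ρ u τ g D X S A)) :
    τ < 13 ^ Nt (M.N o) (M.q o) ∧ u ≤ Nt (M.N o) (M.q o) + 3 * M.b o ∧
      g < 2 ^ (u - Nt (M.N o) (M.q o)) ∧
      D = dec (M.q o) (root (M.N o) (M.q o)) (Nt (M.N o) (M.q o)) τ
        (min u (Nt (M.N o) (M.q o))) ∧
      X < (2 ^ Eb (M.b o)) ^ (3 * M.q o + 4) ∧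
      S < (2 ^ Fb (M.N o) (M.q o) (M.b o)) ^ (3 * M.q o + 4) ∧
      M.Rchd o ρ τ (toF (M.N o) (M.q o) (M.b o) X S, A) := by
  generalize hx : mainS o ρ u τ g D X S A = x at hI
  cases hI with
  | rej => exact absurd (congrArg Sta.mo hx) (by simp [mainS, rejS, Sta.mo])
  | m0 u' h1 => exact absurd (congrArg Sta.mo hx) (by simp [mainS, rdS, Sta.mo])
  | m1 i h1 => exact absurd (congrArg Sta.mo hx) (by simp [mainS, ctS, Sta.mo])
  | m3 h1 => exact absurd (congrArg Sta.mo hx) (by simp [mainS, accS, Sta.mo])
  | m2 i ρ' u' τ' g' D' X' S' A' o' ho h1 hρ hτ hu hg hD hX hS hC =>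
    have e1 : ρ = ρ' := congrArg Sta.ρ hx
    have e2 : u = u' := congrArg Sta.u hx
    have e3 : τ = τ' := congrArg Sta.τ hx
    have e4 : g = g' := congrArg Sta.g hx
    have e5 : D = D' := congrArg Sta.D hx
    have e6 : X = X' := congrArg Sta.X hx
    have e7 : S = S' := congrArg Sta.S hx
    have e8 : A = A' := congrArg Sta.A hx
    have e9 : o = o' := congrArg Sta.o hx
    subst e1 e2 e3 e4 e5 e6 e7 e8 e9
    exact ⟨hτ, hu, hg, hD, hX, hS, hC⟩

theorem gFX : GoalFX := by
  intro hStep hInv β _ M hM w
  have key : ∀ x : Sta β, Relation.ReflTransGen (NStep M.mach w) x accS →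
      M.Inv w x → ∀ (o : β) (ρ u τ g : ℕ) (D : De) (X S A : ℕ),
      x = mainS o ρ u τ g D X S A →
      ∃ g' < 8 ^ M.b o,
        (Nt (M.N o) (M.q o) ≤ u → g' / 2 ^ (3 * M.b o - (u - Nt (M.N o) (M.q o))) = g) ∧
        ∃ E : (ℕ → ℕ × ℕ) × ℕ,
          M.opM o ρ τ g' (toF (M.N o) (M.q o) (M.b o) X S, A) = some E ∧
          ∃ γ : ℕ → ℕ, (∀ τ', γ τ' < 8 ^ M.b o) ∧
            (runs (fun τ' => M.opM o ρ (τ + 1 + τ')) γ
              (13 ^ Nt (M.N o) (M.q o) - (τ + 1)) E).isSome := by
    intro x hx
    induction hx using Relation.ReflTransGen.head_induction_on with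
    | refl =>
      intro _ o ρ u τ g D X S A he
      exact absurd he (acc_ne_main _ _ _ _ _ _ _ _ _)
    | head hs hr ih =>
      rename_i x y
      intro hI o ρ u τ g D X S A he
      subst he
      obtain ⟨γ, hγ, hy⟩ := hs
      have hIy : M.Inv w y := by
        rw [hy]
        exact hInv M hM w _ γ hγ hI
      obtain ⟨hτ, hu, hg, hD, hX, hS, hC⟩ := inv_main hI
      rcases nx_main M w o ρ u τ g D X S A γ with hz | hz
      · rw [hz] at hy
        rw [hy] at hr
        exact absurd (reach_rej M w _ hr) acc_ne_rej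
      · rw [hz] at hy
        by_cases h0 : Nt (M.N o) (M.q o) - u = 0
        · rw [if_pos h0] at hy
          by_cases h1 : Nt (M.N o) (M.q o) + 3 * M.b o - u = 0
          · rw [if_pos h1] at hy
            have hub : u - Nt (M.N o) (M.q o) = 3 * M.b o := by omega
            have hmin2 : min u (Nt (M.N o) (M.q o)) = Nt (M.N o) (M.q o) := by omega
            rw [hub] at hg
            rw [hmin2] at hD
            have hg8 : g < 8 ^ M.b o := by
              have h4 : (8 : ℕ) ^ M.b o = 2 ^ (3 * M.b o) := by
                rw [pow_mul]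
                norm_num
              rw [h4]
              exact hg
            obtain ⟨hst0, hst1⟩ := hStep M hM o ρ τ g X S A hτ hg8 hX hS hC D hD
            by_cases h3 : bigT (M.tst o ρ) (M.b o) (M.c o) (M.W o) D g (M.wV o D A g) X A = 0
            · rw [if_pos h3] at hy
              rw [hy] at hr
              exact absurd (reach_rej M w _ hr) acc_ne_rej
            · rw [if_neg h3] at hy
              obtain ⟨s', hs', _, hs3⟩ := hst1 h3
              refine ⟨g, hg8, ?_, s', hs', ?_⟩
              · intro _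
                have e0 : 3 * M.b o - (u - Nt (M.N o) (M.q o)) = 0 := by omega
                rw [e0, pow_zero, Nat.div_one]
              · by_cases h4 : (τ + 1) / 13 ^ Nt (M.N o) (M.q o) = 0
                · rw [if_pos h4] at hy
                  have hlt : τ + 1 < 13 ^ Nt (M.N o) (M.q o) := by
                    rcases (Nat.div_eq_zero_iff).mp h4 with h5 | h5
                    · exact absurd h5 (by positivity)
                    · exact h5
                  obtain ⟨hse, _, _⟩ := hs3 hlt
                  obtain ⟨g', hg', _, E', hE', γ', hγ', hrun⟩ :=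
                    ih hIy o ρ 0 (τ + 1) 0 _ _ _ _ hy
                  rw [← hse] at hE'
                  have hlen : 13 ^ Nt (M.N o) (M.q o) - (τ + 1) =
                      (13 ^ Nt (M.N o) (M.q o) - (τ + 1 + 1)) + 1 := by
                    omega
                  refine ⟨fun t => if t = 0 then g' else γ' (t - 1), ?_, ?_⟩
                  · intro τ'
                    dsimp only
                    split_ifs
                    · exact hg'
                    · exact hγ' _
                  · rw [hlen]
                    refine runs_head (fun τ' => M.opM o ρ (τ + 1 + τ')) hE' ?_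
                    have hfun : (fun t => (fun τ' => M.opM o ρ (τ + 1 + τ')) (1 + t)) =
                        (fun τ' => M.opM o ρ (τ + 1 + 1 + τ')) := by
                      funext t
                      change M.opM o ρ (τ + 1 + (1 + t)) = M.opM o ρ (τ + 1 + 1 + t)
                      rw [← Nat.add_assoc (τ + 1) 1 t]
                    rw [hfun]
                    exact hrun
                · have h5 : 13 ^ Nt (M.N o) (M.q o) ≤ τ + 1 := by
                    by_contra h6
                    exact h4 (Nat.div_eq_of_lt (by omega))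
                  have hlen : 13 ^ Nt (M.N o) (M.q o) - (τ + 1) = 0 := by omega
                  refine ⟨fun _ => 0, fun _ => by positivity, ?_⟩
                  rw [hlen]
                  rfl
          · rw [if_neg h1] at hy
            obtain ⟨g', hg', hd, E, hE, hCh⟩ := ih hIy o ρ (u + 1) τ (2 * g + γ) D X S A hy
            refine ⟨g', hg', ?_, E, hE, hCh⟩
            intro _
            have e1 : 3 * M.b o - (u - Nt (M.N o) (M.q o)) =
                (3 * M.b o - (u + 1 - Nt (M.N o) (M.q o))) + 1 := by omega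
            rw [e1, pow_succ, ← Nat.div_div_eq_div_mul, hd (by omega)]
            omega
        · rw [if_neg h0] at hy
          obtain ⟨g', hg', _, E, hE, hCh⟩ := ih hIy o ρ (u + 1) τ g _ X S A hy
          exact ⟨g', hg', fun hle => absurd hle (by omega), E, hE, hCh⟩
  intro o ρ u τ g D X S A hI hr
  obtain ⟨g', hg', hd, E, hE, γ, hγ, hrun⟩ := key _ hr hI o ρ u τ g D X S A rfl
  obtain ⟨hτ, _⟩ := inv_main hI
  refine ⟨fun h1 => ⟨g', hg', hd h1, E, hE, γ, hγ, hrun⟩, fun _ => ?_⟩
  refine ⟨fun t => if t = 0 then g' else γ (t - 1), ?_, ?_⟩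
  · intro τ'
    dsimp only
    split_ifs
    · exact hg'
    · exact hγ _
  · have hlen : 13 ^ Nt (M.N o) (M.q o) - τ = (13 ^ Nt (M.N o) (M.q o) - (τ + 1)) + 1 := by
      omega
    rw [hlen]
    refine runs_head (fun τ' => M.opM o ρ (τ + τ')) hE ?_
    have hfun : (fun t => (fun τ' => M.opM o ρ (τ + τ')) (1 + t)) =
        (fun τ' => M.opM o ρ (τ + 1 + τ')) := by
      funext t
      change M.opM o ρ (τ + (1 + t)) = M.opM o ρ (τ + 1 + t)
      rw [← Nat.add_assoc τ 1 t]
    rw [hfun]
    exact hrun

end Pool.Agent.Helper88.UR
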